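import Pool.Agent.H50.ODG.Targets

/-!
# Mirrors which separate two of three points: descent (MP_397744_co)
-/

set_option autoImplicit false

open Pool.Agent.H57.CP Pool.Agent.H39.TO Pool.Agent.H39.OD Pool.Agent.H50.ODG

namespace Pool.Agent.H68.ODG

lemma mem_Cr (G : Submonoid (Module.End ℝ V4)) (P Q R : H3) (g : Module.End ℝ V4) :
    g ∈ Cr G P Q R ↔ g ∈ G ∧ ∃ n : V4, mk n n = -1 ∧ g = refl n ∧
      (mk P.1 n < 0 ∨ mk Q.1 n < 0 ∨ mk R.1 n < 0) ∧
      (0 < mk P.1 n ∨ 0 < mk Q.1 n ∨ 0 < mk R.1 n) := by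
  unfold Cr
  constructor
  · rintro ⟨hg, n, hn, rfl, A, hA, B, hB, h1, h2⟩
    refine ⟨hg, n, hn, rfl, ?_, ?_⟩
    · rcases hA with rfl | rfl | rfl
      · exact Or.inl h1
      · exact Or.inr (Or.inl h1)
      · exact Or.inr (Or.inr h1)
    · rcases hB with rfl | rfl | rfl
      · exact Or.inl h2
      · exact Or.inr (Or.inl h2)
      · exact Or.inr (Or.inr h2)
  · rintro ⟨hg, n, hn, rfl, h1, h2⟩
    obtain ⟨A, hA, h3⟩ : ∃ A ∈ ({P, Q, R} : Set H3), mk A.1 n < 0 := by
      rcases h1 with h | h | h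
      · exact ⟨P, by simp, h⟩
      · exact ⟨Q, by simp, h⟩
      · exact ⟨R, by simp, h⟩
    obtain ⟨B, hB, h4⟩ : ∃ B ∈ ({P, Q, R} : Set H3), 0 < mk B.1 n := by
      rcases h2 with h | h | h
      · exact ⟨P, by simp, h⟩
      · exact ⟨Q, by simp, h⟩
      · exact ⟨R, by simp, h⟩
    exact ⟨hg, n, hn, rfl, A, hA, B, hB, h3, h4⟩

lemma mk_comb (S Q R n : V4) (s r : ℝ) (h : S = s • Q + r • R) :
    mk S n = s * mk Q n + r * mk R n := by
  subst h
  simp only [mk, Pi.add_apply, Pi.smul_apply, smul_eq_mul]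
  ring

/-- a mirror determines its normal up to the sign -/
lemma normal_unique (t n : V4) (ht : mk t t = -1) (h : refl t = refl n) :
    ∃ c : ℝ, c ^ 2 = 1 ∧ ∀ x : V4, mk x n = c * mk x t := by
  have h1 : refl t t = refl n t := by rw [h]
  have h2 : ∀ i, t i + 2 * mk t t * t i = t i + 2 * mk n t * n i := fun i => congrFun h1 i
  have h3 : ∀ i, t i = -(mk n t) * n i := by
    intro i
    have := h2 i
    rw [ht] at this
    linarith
  have h4 : ∀ x : V4, mk x t = -(mk n t) * mk x n := by
    intro x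
    have e : mk x t = x 3 * t 3 - x 0 * t 0 - x 1 * t 1 - x 2 * t 2 := rfl
    have e' : mk x n = x 3 * n 3 - x 0 * n 0 - x 1 * n 1 - x 2 * n 2 := rfl
    rw [e, e', h3 0, h3 1, h3 2, h3 3]
    ring
  have h5 : (-(mk n t)) ^ 2 = 1 := by
    have h6 := h4 t
    have h7 : mk t n = mk n t := by
      unfold mk
      ring
    rw [ht, h7] at h6
    nlinarith
  refine ⟨-(mk n t), h5, fun x => ?_⟩
  rw [h4 x]
  linear_combination (-(mk x n)) * h5

theorem pf_CRD : T_CRD := by
  intro G P Q R S t s r ht hG hs hr hS hP hSt hQ hR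
  have hmem : refl t ∈ Cr G P Q R := by
    rw [mem_Cr]
    exact ⟨hG, t, ht, rfl, Or.inr (Or.inl hQ), Or.inr (Or.inr hR)⟩
  constructor
  · refine ⟨?_, fun h => ?_⟩
    · intro g hg
      rw [mem_Cr] at hg ⊢
      obtain ⟨hg, n, hn, rfl, h1, h2⟩ := hg
      have e := mk_comb S.1 Q.1 R.1 n s r hS
      refine ⟨hg, n, hn, rfl, ?_, ?_⟩
      · rcases h1 with h | h | h
        · exact Or.inl h
        · exact Or.inr (Or.inl h)
        · by_contra hc
          push Not at hc
          obtain ⟨_, c2, c3⟩ := hc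
          have := mul_nonneg hs.le c2
          have := mul_nonneg hr.le c3
          linarith
      · rcases h2 with h | h | h
        · exact Or.inl h
        · exact Or.inr (Or.inl h)
        · by_contra hc
          push Not at hc
          obtain ⟨_, c2, c3⟩ := hc
          have := mul_nonneg hs.le (neg_nonneg.mpr c2)
          have := mul_nonneg hr.le (neg_nonneg.mpr c3)
          linarith
    · have h1 := h hmem
      rw [mem_Cr] at h1
      obtain ⟨_, n, hn, he, h2, h3⟩ := h1
      obtain ⟨c, hc, hx⟩ := normal_unique t n ht he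
      rw [hx P.1, hx Q.1, hx S.1, hP, hSt, mul_zero] at h2 h3
      rcases h2 with h2 | h2 | h2
      · exact lt_irrefl _ h2
      · rcases h3 with h3 | h3 | h3
        · exact lt_irrefl _ h3
        · linarith
        · exact lt_irrefl _ h3
      · exact lt_irrefl _ h2
  · refine ⟨?_, fun h => ?_⟩
    · intro g hg
      rw [mem_Cr] at hg ⊢
      obtain ⟨hg, n, hn, rfl, h1, h2⟩ := hg
      have e := mk_comb S.1 Q.1 R.1 n s r hS
      refine ⟨hg, n, hn, rfl, ?_, ?_⟩
      · rcases h1 with h | h | h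
        · exact Or.inl h
        · by_contra hc
          push Not at hc
          obtain ⟨_, c2, c3⟩ := hc
          have := mul_nonneg hs.le c2
          have := mul_nonneg hr.le c3
          linarith
        · exact Or.inr (Or.inr h)
      · rcases h2 with h | h | h
        · exact Or.inl h
        · by_contra hc
          push Not at hc
          obtain ⟨_, c2, c3⟩ := hc
          have := mul_nonneg hs.le (neg_nonneg.mpr c2)
          have := mul_nonneg hr.le (neg_nonneg.mpr c3)
          linarith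
        · exact Or.inr (Or.inr h)
    · have h1 := h hmem
      rw [mem_Cr] at h1
      obtain ⟨_, n, hn, he, h2, h3⟩ := h1
      obtain ⟨c, hc, hx⟩ := normal_unique t n ht he
      rw [hx P.1, hx R.1, hx S.1, hP, hSt, mul_zero] at h2 h3
      rcases h2 with h2 | h2 | h2
      · exact lt_irrefl _ h2
      · exact lt_irrefl _ h2
      · rcases h3 with h3 | h3 | h3
        · exact lt_irrefl _ h3
        · exact lt_irrefl _ h3
        · linarith

end Pool.Agent.H68.ODG
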