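import Pool.Agent.H50.ODG.Targets

/-!
# Mirrors which separate two of three points: finiteness (MP_397744_co)
-/

set_option autoImplicit false

open Pool.Agent.H57.CP Pool.Agent.H39.TO Pool.Agent.H39.OD Pool.Agent.H50.ODG

namespace Pool.Agent.H68.ODG

theorem pf_CRN (hOPP : T_OPP) : T_CRN := by
  intro G P Q R hG
  have hfin : (⋃ A ∈ ({P, Q, R} : Set H3), ⋃ B ∈ ({P, Q, R} : Set H3),
      {g | g ∈ G ∧ mk A.1 (g A.1) ≤ 2 * (ch A B) ^ 2 - 1}).Finite := by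
    refine Set.Finite.biUnion (Set.toFinite _) fun A _ => ?_
    exact Set.Finite.biUnion (Set.toFinite _) fun B _ => hG A _
  refine hfin.subset ?_
  rintro g ⟨hg, n, hn, rfl, A, hA, B, hB, h1, h2⟩
  simp only [Set.mem_iUnion]
  refine ⟨A, hA, B, hB, hg, ?_⟩
  have h3 := hOPP A B n hn h1.le h2.le
  have h4 : mk A.1 (refl n A.1) = mk A.1 A.1 + 2 * (mk A.1 n) ^ 2 := by
    have h5 : ∀ i, (Pool.Agent.H57.CP.refl n) A.1 i = A.1 i + 2 * mk n A.1 * n i := fun i => rfl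
    have e : mk A.1 (Pool.Agent.H57.CP.refl n A.1) =
        A.1 3 * (Pool.Agent.H57.CP.refl n A.1) 3 - A.1 0 * (Pool.Agent.H57.CP.refl n A.1) 0 -
        A.1 1 * (Pool.Agent.H57.CP.refl n A.1) 1 - A.1 2 * (Pool.Agent.H57.CP.refl n A.1) 2 := rfl
    rw [e, h5 3, h5 0, h5 1, h5 2]
    unfold mk
    ring
  rw [h4, A.2.1]
  linarith

end Pool.Agent.H68.ODG
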